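import Mathlib
import Pool.Agent.N248.SD.F
set_option autoImplicit false

/-!
# The restriction conjecture for the paraboloid tested on sets of small doubling

Let `d = n + 1 ≥ 2` and let `E` be the extension operator of the truncated paraboloid in `ℝ^d`. The
restriction conjecture is equivalent to its dual form: for every `ε > 0`

  `∫_B |E f|² ≤ C_ε |B|^(1/d + ε) ‖f‖_∞²`   for all measurable `B ⊆ ℝ^d` with `|B| ≥ 1`.

The theorem below gives the endpoint estimate, without any loss,

  `∫_B |E f|² ≤ C (|B + B| / |B|)^((d+1)/(2d)) |B|^(1/d) ‖f‖_∞²`,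

so the conjecture holds when it is tested on sets `B` with small sumset, and a set on which it fails
must satisfy `|B + B| ≥ |B|^(1 + c)`. With `B ⊆ {|E f| ≥ λ}` it follows that every subset `B` of a
superlevel set has measure at most `C K^((d+1)/(2(d-1))) (‖f‖_∞ / λ)^(2d/(d-1))`,
`K = |B + B| / |B|`, which is the conjectured bound for the superlevel sets.

More generally `B` may be replaced by the cylinder over a set in a linear image of dimension
`2 ≤ m ≤ d`, in an arbitrary position with respect to the axis of the paraboloid, with `m` in place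
of `d` in the exponents, and the sumset `B + B` by `A + B` for an arbitrary set `A`:

  `|A|^((m-1)/(2m)) ∫_{x : P x ∈ B} |E f|² ≤ C |A + B|^((m+1)/(2m)) ‖f‖_∞²`.
-/

namespace Pool.Agent.N248.Shelf.SmallDoubling

open MeasureTheory Set Complex
open scoped ENNReal NNReal RealInnerProductSpace Pointwise

/-- The closed cube `[-1,1]^n`. -/
def cube (n : ℕ) : Set (EuclideanSpace ℝ (Fin n)) := {ξ | ∀ j, |ξ j| ≤ 1}

/-- The extension operator of the truncated paraboloid in `ℝ^(n+1)`:
`Ef(x) = ∫_{[-1,1]^n} f(ξ) exp(2πi(∑_{j<n} ξ_j x_j + |ξ|² x_n)) dξ`. -/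
noncomputable def ext {n : ℕ} (f : EuclideanSpace ℝ (Fin n) → ℂ)
    (x : EuclideanSpace ℝ (Fin (n + 1))) : ℂ :=
  ∫ ξ in cube n, f ξ *
    cexp (2 * Real.pi * I * ((∑ j, ξ j * x j.castSucc + (∑ j, ξ j ^ 2) * x (Fin.last n) : ℝ) : ℂ))

/-- The coordinates `(⟪v_i, x⟫)_i` of `x` with respect to the vectors `v_i`. -/
noncomputable def coords {n m : ℕ} (v : Fin m → EuclideanSpace ℝ (Fin (n + 1)))
    (x : EuclideanSpace ℝ (Fin (n + 1))) : EuclideanSpace ℝ (Fin m) :=
  WithLp.toLp 2 fun i => ⟪v i, x⟫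

open Pool.Agent.N248.SD Pool.Agent.R412.RT in
lemma ext_eq {n : ℕ} (f : EuclideanSpace ℝ (Fin n) → ℂ) (x : EuclideanSpace ℝ (Fin (n + 1))) :
    ext f x = Ex ((cube n).indicator f) x := by
  have hc : MeasurableSet (cube n) := by
    have : cube n = ⋂ j, {ξ : EuclideanSpace ℝ (Fin n) | |ξ j| ≤ 1} := by
      ext ξ; simp [cube]
    rw [this]
    exact MeasurableSet.iInter fun j => measurableSet_le (by fun_prop) measurable_const
  unfold ext Ex
  rw [← integral_indicator hc]
  refine integral_congr_ae (Filter.Eventually.of_forall fun ξ => ?_)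
  simp only
  by_cases hξ : ξ ∈ cube n
  · rw [indicator_of_mem hξ, indicator_of_mem hξ, mul_comm]
    congr 1
    unfold ee
    congr 1
    have : ⟪Phi ξ, x⟫ = ∑ j, ξ j * x j.castSucc + (∑ j, ξ j ^ 2) * x (Fin.last n) := by
      rw [inner_eq, Fin.sum_univ_castSucc]
      simp
    rw [this]
    ring
  · rw [indicator_of_notMem hξ, indicator_of_notMem hξ, mul_zero]

lemma cube_meas (n : ℕ) : MeasurableSet (cube n) := by
  have : cube n = ⋂ j, {ξ : EuclideanSpace ℝ (Fin n) | |ξ j| ≤ 1} := by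
    ext ξ; simp [cube]
  rw [this]
  exact MeasurableSet.iInter fun j => measurableSet_le (by fun_prop) measurable_const

lemma cube_vol (n : ℕ) : volume (cube n) ≠ ∞ := by
  have hsub : cube n ⊆ Metric.closedBall (0 : EuclideanSpace ℝ (Fin n)) (Real.sqrt n) := by
    intro ξ hξ
    rw [mem_closedBall_zero_iff, EuclideanSpace.norm_eq]
    refine Real.sqrt_le_sqrt ?_
    have : ∑ i : Fin n, ‖ξ i‖ ^ 2 ≤ ∑ i : Fin n, (1 : ℝ) := by
      refine Finset.sum_le_sum fun i _ => ?_
      rw [Real.norm_eq_abs]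
      have h := hξ i
      have h0 := abs_nonneg (ξ i)
      nlinarith
    rw [Finset.sum_const, Finset.card_univ, Fintype.card_fin, nsmul_eq_mul, mul_one] at this
    exact this
  exact ((measure_mono hsub).trans_lt measure_closedBall_lt_top).ne

open Pool.Agent.N248.SD in
/-- **The restriction conjecture tested on sets of small doubling.** Let `n ≥ 1`, `d = n + 1` and
`2 ≤ m ≤ d`. There is `C` such that for all `f ∈ L^∞([-1,1]^n)`, all orthonormal families
`v_1, ..., v_m` in `ℝ^d` and all measurable `A, B ⊆ ℝ^m`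

  `|A|^((m-1)/(2m)) ∫_{x : (⟪v_i, x⟫)_i ∈ B} |E f|² ≤ C |A + B|^((m+1)/(2m)) ‖f‖_∞²`. -/
theorem result (n m : ℕ) (hm : 2 ≤ m) (hmn : m ≤ n + 1) :
    ∃ C : ℝ≥0, ∀ (f : EuclideanSpace ℝ (Fin n) → ℂ) (v : Fin m → EuclideanSpace ℝ (Fin (n + 1)))
      (A B : Set (EuclideanSpace ℝ (Fin m))),
      MemLp f ∞ (volume.restrict (cube n)) → Orthonormal ℝ v → MeasurableSet A →
      MeasurableSet B →
      volume A ^ (((m : ℝ) - 1) / (2 * m)) * ∫⁻ x in {x | coords v x ∈ B}, ‖ext f x‖ₑ ^ 2 ≤
        C * volume (A + B) ^ (((m : ℝ) + 1) / (2 * m)) *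
          eLpNorm f ∞ (volume.restrict (cube n)) ^ 2 := by
  obtain ⟨k, hmk⟩ : ∃ k, m + k = n + 1 := ⟨n + 1 - m, by omega⟩
  have hK : Kc n k * (Rz m + 1) ≠ ∞ := ENNReal.mul_ne_top (Kc_ne_top (by omega))
    (ENNReal.add_ne_top.2 ⟨Rz_ne_top m (by omega), ENNReal.one_ne_top⟩)
  refine ⟨(Kc n k * (Rz m + 1)).toNNReal + 1, ?_⟩
  intro f v A B hf hv hA hB
  have hm0 : (2 : ℝ) ≤ m := by exact_mod_cast hm
  set K : ℝ≥0∞ := Kc n k * (Rz m + 1) with hKd
  set N : ℝ≥0∞ := eLpNorm f ∞ (volume.restrict (cube n)) with hN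
  have hNt : N ≠ ∞ := hf.2.ne
  have hC : (((K.toNNReal + 1 : ℝ≥0)) : ℝ≥0∞) = K + 1 := by
    rw [ENNReal.coe_add, ENNReal.coe_toNNReal hK, ENNReal.coe_one]
  rw [hC]
  -- the basis
  obtain ⟨b, hb⟩ : ∃ b : OrthonormalBasis (Fin m ⊕ Fin k) ℝ (EuclideanSpace ℝ (Fin (n + 1))),
      ∀ i, b (Sum.inl i) = v i := by
    have hcard : Module.finrank ℝ (EuclideanSpace ℝ (Fin (n + 1))) =
        Fintype.card (Fin m ⊕ Fin k) := by
      rw [finrank_euclideanSpace, Fintype.card_fin, Fintype.card_sum, Fintype.card_fin,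
        Fintype.card_fin, hmk]
    have hv' : Orthonormal ℝ ((range (Sum.inl : Fin m → Fin m ⊕ Fin k)).restrict
        (Sum.elim v (fun _ => (0 : EuclideanSpace ℝ (Fin (n + 1)))))) := by
      have h1 := hv.comp (fun s : range (Sum.inl : Fin m → Fin m ⊕ Fin k) =>
        s.2.choose) (by
          intro s t hst
          have a1 := s.2.choose_spec
          have a2 := t.2.choose_spec
          simp only at hst
          rw [hst] at a1
          exact Subtype.ext (a1.symm.trans a2))
      convert h1 using 1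
      ext1 s
      exact (congrArg (Sum.elim v fun _ => (0 : EuclideanSpace ℝ (Fin (n + 1))))
        s.2.choose_spec).symm
    obtain ⟨b, hb⟩ := hv'.exists_orthonormalBasis_extension_of_card_eq hcard
    exact ⟨b, fun i => by rw [hb _ (mem_range_self i)]; rfl⟩
  have hco : ∀ x, coords v x = pr b x := by
    intro x
    unfold coords pr
    simp_rw [hb]
  -- reduction to a bounded function
  obtain ⟨f', hf'm, hff'⟩ := hf.1
  have hext : ∀ x, ext f x = ext f' x := by
    intro x
    unfold ext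
    refine integral_congr_ae ?_
    filter_upwards [hff'] with ξ hξ
    rw [hξ]
  have hN' : eLpNorm f' ∞ (volume.restrict (cube n)) = N := (eLpNorm_congr_ae hff').symm
  rcases eq_or_ne N 0 with h0 | h0
  · have hz : f' =ᵐ[volume.restrict (cube n)] 0 := by
      rw [h0] at hN'
      exact (eLpNorm_eq_zero_iff hf'm.aestronglyMeasurable (by simp)).1 hN'
    have : ∀ x, ext f x = 0 := by
      intro x
      rw [hext]
      unfold ext
      have : ∀ᵐ ξ ∂(volume.restrict (cube n)), f' ξ * cexp (2 * Real.pi * I *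
          ((∑ j, ξ j * x j.castSucc + (∑ j, ξ j ^ 2) * x (Fin.last n) : ℝ) : ℂ)) = 0 := by
        filter_upwards [hz] with ξ hξ
        rw [hξ]; simp
      rw [integral_congr_ae this, integral_zero]
    simp [this]
  -- degenerate sets
  rcases eq_or_ne (volume (A + B)) ∞ with hi | hi
  · rw [hi, ENNReal.top_rpow_of_pos (by positivity), ENNReal.mul_top (by simp),
      ENNReal.top_mul (pow_ne_zero 2 h0)]
    exact le_top
  rcases B.eq_empty_or_nonempty with hBe | ⟨b₀, hb₀⟩
  · rw [hBe]; simp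
  have hAi : volume A ≠ ∞ := by
    refine ne_top_of_le_ne_top hi ?_
    have h1 : A = (fun x => x + b₀) ⁻¹' ((fun x => x + b₀) '' A) :=
      (preimage_image_eq A (add_left_injective b₀)).symm
    have h2 : volume A = volume ((fun x => x + b₀) '' A) := by
      conv_lhs => rw [h1]
      exact measure_preimage_add_right _ _ _
    rw [h2]
    refine measure_mono ?_
    rintro _ ⟨a, ha, rfl⟩
    exact add_mem_add ha hb₀
  rcases eq_or_ne (volume A) 0 with hA0 | hA0
  · rw [hA0, ENNReal.zero_rpow_of_pos (by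
      have : 0 < (m : ℝ) - 1 := by linarith
      positivity), zero_mul]
    exact zero_le
  -- the main case
  set M : ℝ := N.toReal with hM
  have hM0 : 0 < M := ENNReal.toReal_pos h0 hNt
  have hMN : N = ENNReal.ofReal M := (ENNReal.ofReal_toReal hNt).symm
  set S : Set (EuclideanSpace ℝ (Fin m)) := toMeasurable volume (A + B) with hS
  have hSv : volume S = volume (A + B) := measure_toMeasurable _
  set φ : EuclideanSpace ℝ (Fin n) → ℂ := (cube n).indicator fun ξ => (M : ℂ)⁻¹ * f' ξ with hφ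
  have hφm : StronglyMeasurable φ := (hf'm.const_mul _).indicator (cube_meas n)
  have hbd : ∀ᵐ ξ, ‖φ ξ‖ ≤ (cube n).indicator (fun _ => (1 : ℝ)) ξ := by
    have h1 : ∀ᵐ ξ ∂(volume.restrict (cube n)), ‖f' ξ‖ₑ ≤ N := by
      rw [← hN', eLpNorm_exponent_top]
      exact ae_le_eLpNormEssSup
    rw [ae_restrict_iff' (cube_meas n)] at h1
    filter_upwards [h1] with ξ hξ
    by_cases hc : ξ ∈ cube n
    · rw [hφ, indicator_of_mem hc, indicator_of_mem hc, norm_mul, norm_inv, Complex.norm_real,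
        Real.norm_of_nonneg hM0.le, inv_mul_le_iff₀ hM0, mul_one]
      have h2 := hξ hc
      rw [hMN, ← ofReal_norm, ENNReal.ofReal_le_ofReal_iff hM0.le] at h2
      exact h2
    · rw [hφ, indicator_of_notMem hc, indicator_of_notMem hc, norm_zero]
  have hind : Integrable ((cube n).indicator (fun _ => (1 : ℝ))) := by
    rw [integrable_indicator_iff (cube_meas n)]
    exact integrableOn_const (cube_vol n)
  have hφi : Integrable φ := hind.mono' hφm.aestronglyMeasurable hbd
  have hφG : ∀ᵐ ξ, ‖φ ξ‖ ≤ Gs n ξ := by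
    filter_upwards [hbd] with ξ hξ
    refine hξ.trans ?_
    by_cases hc : ξ ∈ cube n
    · rw [indicator_of_mem hc]
      exact Gs_cube ξ hc
    · rw [indicator_of_notMem hc]
      exact Gs_nonneg ξ
  have hmain := two_set b hmk hm S A B hA hB (measurableSet_toMeasurable _ _)
    (fun a ha b' hb' => subset_toMeasurable _ _ (by rw [add_comm b' a]; exact add_mem_add ha hb'))
    (by rw [hSv]; exact hi) hAi φ hφm hφi hφG
  have hExt : ∀ x, ‖ext f x‖ₑ ^ 2 = N ^ 2 * ‖Pool.Agent.R412.RT.Ex φ x‖ₑ ^ 2 := by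
    intro x
    have h1 : Pool.Agent.R412.RT.Ex φ x = (M : ℂ)⁻¹ * ext f x := by
      rw [hext, ext_eq]
      unfold Pool.Agent.R412.RT.Ex
      rw [← integral_const_mul]
      refine integral_congr_ae (Filter.Eventually.of_forall fun ξ => ?_)
      simp only [hφ]
      by_cases hc : ξ ∈ cube n
      · rw [indicator_of_mem hc, indicator_of_mem hc]; ring
      · rw [indicator_of_notMem hc, indicator_of_notMem hc]; ring
    have h2 : ext f x = (M : ℂ) * Pool.Agent.R412.RT.Ex φ x := by
      rw [h1, ← mul_assoc, mul_inv_cancel₀ (by exact_mod_cast hM0.ne'), one_mul]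
    rw [h2, enorm_mul, mul_pow]
    congr 2
    rw [← ofReal_norm, Complex.norm_real, Real.norm_of_nonneg hM0.le, hMN]
  have hset : {x | coords v x ∈ B} = {x | pr b x ∈ B} := by
    ext x; simp only [mem_ofPred_eq, hco]
  rw [hset]
  simp_rw [hExt]
  rw [lintegral_const_mul _ ((Pool.Agent.R412.RT.Ex_meas φ hφi.1).enorm.pow_const 2)]
  set J : ℝ≥0∞ := ∫⁻ x in {x | pr b x ∈ B}, ‖Pool.Agent.R412.RT.Ex φ x‖ₑ ^ 2 with hJ
  set α : ℝ := ((m : ℝ) + 1) / (2 * m) with hα
  have hpow : ∀ t : ℝ≥0∞, t ≠ ∞ → (t * t ^ (1 / (m : ℝ))) ^ (1 / 2 : ℝ) = t ^ α := by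
    intro t ht
    have : t * t ^ (1 / (m : ℝ)) = t ^ (1 + 1 / (m : ℝ)) := by
      rw [ENNReal.rpow_add_of_nonneg _ _ (by norm_num) (by positivity), ENNReal.rpow_one]
    rw [this, ← ENNReal.rpow_mul]
    congr 1
    rw [hα]
    field_simp
  rw [hpow _ (by rw [hSv]; exact hi), hpow _ hAi, hSv] at hmain
  have hsplit : volume A ^ (((m : ℝ) - 1) / (2 * m)) * volume A ^ α = volume A := by
    rw [← ENNReal.rpow_add _ _ hA0 hAi]
    nth_rewrite 2 [← ENNReal.rpow_one (volume A)]
    congr 1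
    rw [hα]
    field_simp
    ring
  have hfin : volume A ^ (((m : ℝ) - 1) / (2 * m)) * J ≤ K * volume (A + B) ^ α := by
    have hp0 : volume A ^ α ≠ 0 := by
      rw [Ne, ENNReal.rpow_eq_zero_iff]
      push Not
      exact ⟨fun h => absurd h hA0, fun h => absurd h hAi⟩
    have hpt : volume A ^ α ≠ ∞ := ENNReal.rpow_ne_top_of_nonneg (by positivity) hAi
    rw [← ENNReal.mul_le_mul_iff_left hp0 hpt]
    refine le_trans (le_of_eq ?_) hmain
    rw [mul_right_comm, hsplit, mul_comm]
  calc volume A ^ (((m : ℝ) - 1) / (2 * m)) * (N ^ 2 * J)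
      = (volume A ^ (((m : ℝ) - 1) / (2 * m)) * J) * N ^ 2 := by ring
    _ ≤ (K * volume (A + B) ^ α) * N ^ 2 := mul_le_mul' hfin le_rfl
    _ ≤ (K + 1) * volume (A + B) ^ α * N ^ 2 := by
      gcongr
      exact le_self_add

end Pool.Agent.N248.Shelf.SmallDoubling
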